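import Pool.Agent.K3h48.PS.Stm

/-!
Brick LEM (helper36): a Urysohn function, and sequences in an interval.
-/

namespace K3h36.PS

open Set Topology Filter

universe u v

/-- one limit point with a prescribed value of the Urysohn function -/
theorem one {L : Type u} [LinearOrder L] [TopologicalSpace L] [OrderTopology L]
    [CompactSpace L] [PreconnectedSpace L]
    {Y : Type v} [TopologicalSpace Y] (f : L → Y) (hf : Continuous f)
    (g : Y → ℝ) (hg : Continuous g) (a b : L) (hab : a ≤ b) (ha : g (f a) = 0)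
    (hb : g (f b) = 1) (r : ℝ) (hr : 0 < r) (hr2 : r < 1 / 2) :
    ∃ x ∈ Icc a b, ∃ Q : Set Y, Q.Countable ∧ f x ∈ closure Q ∧ g (f x) = r ∧
      ∀ q ∈ Q, ∃ k : ℕ, g q = r + 1 / ((k : ℝ) + 3) := by
  have hpre : IsPreconnected (Icc a b) := by
    have h1 : range (Subtype.val ∘ projIcc a b hab) = Icc a b := by
      rw [range_comp, (projIcc_surjective hab).range_eq, image_univ, Subtype.range_coe]
    rw [← h1]
    exact isPreconnected_range (continuous_subtype_val.comp continuous_projIcc)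
  have hiv := hpre.intermediate_value (left_mem_Icc.mpr hab) (right_mem_Icc.mpr hab)
    (hg.comp hf).continuousOn
  simp only [Function.comp_apply, ha, hb] at hiv
  have hw : ∀ k : ℕ, ∃ w ∈ Icc a b, g (f w) = r + 1 / ((k : ℝ) + 3) := by
    intro k
    have hk : (0 : ℝ) < (k : ℝ) + 3 := by positivity
    have h3 : 1 / ((k : ℝ) + 3) ≤ 1 / 3 :=
      one_div_le_one_div_of_le (by norm_num) (by have := Nat.cast_nonneg (α := ℝ) k; linarith)
    have h4 : 0 < 1 / ((k : ℝ) + 3) := by positivity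
    obtain ⟨w, hw1, hw2⟩ := hiv (show r + 1 / ((k : ℝ) + 3) ∈ Icc (0 : ℝ) 1 from
      ⟨by linarith, by linarith⟩)
    exact ⟨w, hw1, hw2⟩
  choose w hw1 hw2 using hw
  obtain ⟨x, hx, hxl⟩ := (isClosed_Icc (a := a) (b := b)).isCompact.ultrafilter_le_nhds
    ((hyperfilter ℕ).map w) (by
      rw [le_principal_iff]
      exact Filter.mem_map.mpr (Filter.Eventually.of_forall hw1))
  have hxt : Tendsto w (hyperfilter ℕ : Filter ℕ) (𝓝 x) := hxl
  refine ⟨x, hx, range (f ∘ w), countable_range _, ?_, ?_, ?_⟩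
  · exact mem_closure_of_tendsto ((hf.tendsto x).comp hxt)
      (Eventually.of_forall fun k => mem_range_self k)
  · have h1 : Tendsto (fun k => g (f (w k))) (hyperfilter ℕ : Filter ℕ) (𝓝 (g (f x))) :=
      ((hg.comp hf).tendsto x).comp hxt
    have h2 : Tendsto (fun k : ℕ => r + 1 / ((k : ℝ) + 3)) atTop (𝓝 (r + 0)) := by
      refine tendsto_const_nhds.add ?_
      have h3 : Tendsto (fun k : ℕ => (k : ℝ) + 3) atTop atTop :=
        tendsto_atTop_add_const_right _ _ tendsto_natCast_atTop_atTop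
      have h4 := h3.inv_tendsto_atTop
      refine h4.congr fun k => ?_
      simp
    have h3 : Tendsto (fun k => g (f (w k))) (hyperfilter ℕ : Filter ℕ) (𝓝 r) := by
      rw [add_zero] at h2
      refine (h2.mono_left Nat.hyperfilter_le_atTop).congr fun k => ?_
      exact (hw2 k).symm
    exact tendsto_nhds_unique h1 h3
  · rintro q ⟨k, rfl⟩
    exact ⟨k, hw2 k⟩

theorem lem : K3h48.PS.t_LEM.{u, v} := by
  intro L _ _ _ _ _ Y _ _ _ f hf a b hab hne E hE
  obtain ⟨g, hg0, hg1, _⟩ := exists_continuous_zero_one_of_isClosed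
    (isClosed_singleton (x := f a)) (isClosed_singleton (x := f b))
    (disjoint_singleton.mpr hne)
  have ha : g (f a) = 0 := hg0 (mem_singleton _)
  have hb : g (f b) = 1 := hg1 (mem_singleton _)
  -- the bad real numbers
  have hEc : (g '' E).Countable := hE.image _
  obtain ⟨B, hB, hBE⟩ : ∃ B : Set ℝ, B.Countable ∧ ∀ r ∉ B, r ∉ g '' E ∧
      ∀ k : ℕ, r + 1 / ((k : ℝ) + 3) ∉ g '' E := by
    refine ⟨g '' E ∪ ⋃ k : ℕ, (fun t : ℝ => t - 1 / ((k : ℝ) + 3)) '' (g '' E),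
      hEc.union (countable_iUnion fun k => hEc.image _), fun r hr => ⟨fun h => hr (Or.inl h),
        fun k h => hr (Or.inr (mem_iUnion.mpr ⟨k, _, h, by simp⟩))⟩⟩
  have key : ∀ B' : Set ℝ, B'.Countable → ∃ r, 0 < r ∧ r < 1 / 2 ∧ r ∉ B' := by
    intro B' hB'
    obtain ⟨r, hr, hr2⟩ := (hB'.dense_compl ℝ).exists_mem_open
      (isOpen_Ioo (a := (0 : ℝ)) (b := 1 / 2)) (nonempty_Ioo.mpr (by norm_num))
    exact ⟨r, hr2.1, hr2.2, hr⟩
  obtain ⟨r, hr0, hr1, hrB⟩ := key B hB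
  obtain ⟨s, hs0, hs1, hsB⟩ := key (B ∪ {r} ∪ range (fun k : ℕ => r + 1 / ((k : ℝ) + 3)) ∪
    range (fun k : ℕ => r - 1 / ((k : ℝ) + 3)))
    (((hB.union (countable_singleton r)).union (countable_range _)).union (countable_range _))
  obtain ⟨x, hx, Q1, hQ1, hxQ, hgx, hQ1g⟩ := one f hf g g.continuous a b hab ha hb r hr0 hr1
  obtain ⟨y, hy, Q2, hQ2, hyQ, hgy, hQ2g⟩ := one f hf g g.continuous a b hab ha hb s hs0 hs1
  have hpos : ∀ k : ℕ, (0 : ℝ) < 1 / ((k : ℝ) + 3) := fun k => by positivity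
  have hsB' : s ∉ B := fun h => hsB (Or.inl (Or.inl (Or.inl h)))
  have hsr : s ≠ r := fun h => hsB (Or.inl (Or.inl (Or.inr h)))
  have hs2 : ∀ k : ℕ, s ≠ r + 1 / ((k : ℝ) + 3) := fun k h => hsB (Or.inl (Or.inr ⟨k, h.symm⟩))
  have hs3 : ∀ k : ℕ, s ≠ r - 1 / ((k : ℝ) + 3) := fun k h => hsB (Or.inr ⟨k, h.symm⟩)
  refine ⟨x, hx, y, hy, Q1 ∪ Q2, hQ1.union hQ2, ?_, ?_, ?_, ?_, ?_, ?_,
    closure_mono subset_union_left hxQ, closure_mono subset_union_right hyQ⟩
  · intro h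
    rw [h, hgy] at hgx
    exact hsr hgx
  · rintro (h | h)
    · obtain ⟨k, hk⟩ := hQ1g _ h
      have := hpos k
      linarith
    · obtain ⟨k, hk⟩ := hQ2g _ h
      exact hs3 k (by linarith)
  · rintro (h | h)
    · obtain ⟨k, hk⟩ := hQ1g _ h
      exact hs2 k (by linarith)
    · obtain ⟨k, hk⟩ := hQ2g _ h
      have := hpos k
      linarith
  · intro h
    exact (hBE r hrB).1 ⟨_, h, hgx⟩
  · intro h
    exact (hBE s hsB').1 ⟨_, h, hgy⟩
  · rw [Set.disjoint_left]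
    rintro q (h | h) hqE
    · obtain ⟨k, hk⟩ := hQ1g _ h
      exact (hBE r hrB).2 k ⟨_, hqE, hk⟩
    · obtain ⟨k, hk⟩ := hQ2g _ h
      exact (hBE s hsB').2 k ⟨_, hqE, hk⟩

end K3h36.PS
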