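import Pool.Agent.K3h48.PS.Stm

/-!
Brick LP (helper36): a consequence of the p-space property of a subspace.
-/

namespace K3h36.PS

open Set Topology

universe u v

theorem lp : K3h48.PS.t_LP.{u, v} := by
  intro Y _ _ _ S hS I z b hz hb hbS
  obtain ⟨γ, hγo, hγc, hγ⟩ := hS
  have hc : Continuous (Subtype.val : S → Y) := continuous_subtype_val
  set h : StoneCech S → Y := stoneCechExtend hc with hh
  have hcont : Continuous h := continuous_stoneCechExtend hc
  have hu : ∀ s : S, h (stoneCechUnit s) = s := fun s => stoneCechExtend_stoneCechUnit hc s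
  -- the range of `h`
  have F1 : closure S ⊆ range h := by
    refine closure_minimal (fun s hs => ⟨stoneCechUnit ⟨s, hs⟩, hu ⟨s, hs⟩⟩) ?_
    exact (isCompact_range hcont).isClosed
  -- the fibres over the points of `S`
  have F2 : ∀ (w : StoneCech S) (s : S), h w = s → w = stoneCechUnit s := by
    intro w s hw
    by_contra hne
    obtain ⟨U, V, hU, hV, hwU, hsV, hUV⟩ := t2_separation hne
    obtain ⟨O, hO, hOV⟩ := isOpen_induced_iff.mp
      (hV.preimage (continuous_stoneCechUnit (α := S)))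
    have hsO : (s : Y) ∈ O := by
      have : s ∈ Subtype.val ⁻¹' O := by rw [hOV]; exact hsV
      exact this
    obtain ⟨s', hs'⟩ := (denseRange_stoneCechUnit (α := S)).exists_mem_open
      ((hO.preimage hcont).inter hU) ⟨w, by rw [mem_preimage, hw]; exact hsO, hwU⟩
    have h1 : (s' : Y) ∈ O := by
      have := hs'.1
      rwa [mem_preimage, hu] at this
    have h2 : s' ∈ (stoneCechUnit : S → StoneCech S) ⁻¹' V := by
      rw [← hOV]; exact h1
    exact Set.disjoint_left.mp hUV hs'.2 h2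
  have hN : ∀ i, ∃ n, ∀ G ∈ γ n, stoneCechUnit (⟨z i, hz i⟩ : S) ∈ G →
      ¬ (∀ w, h w = b i → w ∈ G) := by
    intro i
    by_contra hcon
    push Not at hcon
    obtain ⟨w, hw⟩ := F1 (hb i)
    have hmem : w ∈ ⋂ n, ⋃₀ {G | G ∈ γ n ∧ stoneCechUnit (⟨z i, hz i⟩ : S) ∈ G} := by
      refine mem_iInter.mpr fun n => ?_
      obtain ⟨G, hG, hzG, hG2⟩ := hcon n
      exact ⟨G, ⟨hG, hzG⟩, hG2 w hw⟩
    obtain ⟨s, hs⟩ := hγ ⟨z i, hz i⟩ hmem
    apply hbS i
    rw [← hw, ← hs, hu]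
    exact s.2
  choose N hN using hN
  refine ⟨N, fun n c hcS => ?_⟩
  obtain ⟨G, hG, hcG⟩ := hγc n ⟨c, hcS⟩
  refine ⟨(h '' Gᶜ)ᶜ, ?_, ?_, ?_⟩
  · have h1 : IsClosed (h '' Gᶜ) :=
      (((hγo n G hG).isClosed_compl).isCompact.image hcont).isClosed
    exact h1.isOpen_compl
  · rintro ⟨w, hwG, hw⟩
    have := F2 w ⟨c, hcS⟩ hw
    rw [this] at hwG
    exact hwG hcG
  · rintro i rfl ⟨hzO, hbO⟩
    refine hN i G hG ?_ ?_
    · by_contra hcon
      exact hzO ⟨_, hcon, hu _⟩
    · intro w hw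
      by_contra hcon
      exact hbO ⟨w, hcon, hw⟩

end K3h36.PS
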